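import Mathlib

set_option autoImplicit false

/-!
# Rational Ehrhart numerators of cyclic block polytopes are not gamma-nonnegative

For three blocks of size `a` the coefficient `gamma_1` of the rational Ehrhart numerator is
negative, for every `a ≥ 1`.
-/

open Finset Polynomial

namespace Pool.Agent.Results.MP_308823_co.GammaFails

/-- The number `L(q)` of lattice points of `q` times the cyclic block polytope with `m` blocks of
`a` coordinates: nonnegative integer vectors `x` with `R_i + R_{i+1} ≤ q` for all `i` in `ℤ/m`,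
where `R_i = ∑ j, x i j`. -/
noncomputable def L (m a q : ℕ) : ℕ :=
  Nat.card {x : ZMod m → Fin a → ℕ // ∀ i : ZMod m, (∑ j, x i j) + (∑ j, x (i + 1) j) ≤ q}

/-- `h` is the rational Ehrhart numerator `h_{m,a}`, that is,
`∑ L(q) z^q = h(z) / (1 - z²)^(am+1)`. -/
def IsNumerator (m a : ℕ) (h : ℤ[X]) : Prop :=
  (h : PowerSeries ℤ) =
    (1 - PowerSeries.X ^ 2) ^ (a * m + 1) * PowerSeries.mk fun q => (L m a q : ℤ)

/-- `h`, of degree `N`, is gamma-nonnegative: `h(z) = ∑ γ_j z^j (1+z)^(N-2j)` with real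
coefficients `γ_j ≥ 0`, the sum over `0 ≤ j ≤ N/2`. -/
def GammaNonneg (h : ℤ[X]) : Prop :=
  ∃ γ : ℕ → ℝ, (∀ j, 0 ≤ γ j) ∧ h.map (Int.castRingHom ℝ) =
    ∑ j ∈ range (h.natDegree / 2 + 1), C (γ j) * X ^ j * (1 + X) ^ (h.natDegree - 2 * j)

/-! ### gamma-nonnegativity bounds the degree -/

theorem degree_le_coeff_one {h : ℤ[X]} (hg : GammaNonneg h) (h0 : h.coeff 0 = 1) :
    (h.natDegree : ℤ) ≤ h.coeff 1 := by
  obtain ⟨γ, hγ, heq⟩ := hg
  set N := h.natDegree
  have hc : ∀ k : ℕ, ((h.coeff k : ℤ) : ℝ) = ∑ j ∈ range (N / 2 + 1),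
      (C (γ j) * X ^ j * (1 + X) ^ (N - 2 * j)).coeff k := by
    intro k
    have := congrArg (fun p => Polynomial.coeff p k) heq
    simpa [Polynomial.coeff_map, Polynomial.finsetSum_coeff] using this
  have hterm : ∀ j k : ℕ, (C (γ j) * X ^ j * (1 + X) ^ (N - 2 * j)).coeff k =
      if j ≤ k then γ j * ((N - 2 * j).choose (k - j) : ℝ) else 0 := by
    intro j k
    rw [mul_assoc, Polynomial.coeff_C_mul, Polynomial.coeff_X_pow_mul']
    split_ifs with h
    · rw [Polynomial.coeff_one_add_X_pow]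
    · simp
  have e0 : γ 0 = 1 := by
    have := hc 0
    rw [Finset.sum_eq_single 0] at this
    · rw [hterm, h0] at this
      simpa using this.symm
    · intro j _ hj
      rw [hterm, if_neg (by omega)]
    · intro h
      exact absurd (Finset.mem_range.2 (Nat.succ_pos _)) h
  have e1 := hc 1
  have hnn : ∀ j ∈ range (N / 2 + 1),
      0 ≤ (fun j => (C (γ j) * X ^ j * (1 + X) ^ (N - 2 * j)).coeff 1) j := by
    intro j _
    show 0 ≤ (C (γ j) * X ^ j * (1 + X) ^ (N - 2 * j)).coeff 1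
    rw [hterm]
    split_ifs
    · exact mul_nonneg (hγ j) (Nat.cast_nonneg _)
    · exact le_rfl
  have hle : (C (γ 0) * X ^ 0 * (1 + X) ^ (N - 2 * 0)).coeff 1 ≤ ∑ j ∈ range (N / 2 + 1),
      (C (γ j) * X ^ j * (1 + X) ^ (N - 2 * j)).coeff 1 :=
    Finset.single_le_sum hnn (Finset.mem_range.2 (Nat.succ_pos _))
  rw [← e1, hterm, e0] at hle
  simp at hle
  exact_mod_cast hle

/-! ### counting lattice points for `m = 3` -/

/-- The number of vectors of `a` nonnegative integers with sum `r`. -/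
noncomputable def W (a r : ℕ) : ℕ := Nat.card {y : Fin a → ℕ // ∑ j, y j = r}

theorem W_eq (a r : ℕ) : W a r = (a + r - 1).choose r := by
  unfold W
  rw [← Nat.card_congr (Sym.equivNatSumOfFintype (Fin a) r), Nat.card_eq_fintype_card,
    Sym.card_sym_eq_choose, Fintype.card_fin]

theorem sum_W (a n : ℕ) : ∑ r ∈ range (n + 1), W a r = (a + n).choose n := by
  induction n with
  | zero => simp [W_eq]
  | succ n ih =>
    rw [Finset.sum_range_succ, ih, W_eq]
    have : a + (n + 1) - 1 = a + n := by omega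
    rw [this, ← add_assoc, Nat.choose_succ_succ]

/-- All vectors with sum at most `q`. -/
def F (a q : ℕ) : Finset (Fin a → ℕ) :=
  (Fintype.piFinset fun _ : Fin a => range (q + 1)).filter fun y => ∑ j, y j ≤ q

theorem mem_F {a q : ℕ} {y : Fin a → ℕ} : y ∈ F a q ↔ ∑ j, y j ≤ q := by
  unfold F
  rw [Finset.mem_filter, Fintype.mem_piFinset]
  refine ⟨fun h => h.2, fun h => ⟨fun j => ?_, h⟩⟩
  rw [Finset.mem_range]
  have : y j ≤ ∑ j, y j := Finset.single_le_sum (fun _ _ => Nat.zero_le _) (Finset.mem_univ j)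
  omega

theorem card_fib {a q r : ℕ} (hr : r ≤ q) :
    (Finset.filter (fun y : Fin a → ℕ => ∑ j, y j = r) (F a q)).card = W a r := by
  unfold W
  rw [Nat.subtype_card]
  intro y
  rw [Finset.mem_filter, mem_F]
  constructor
  · exact fun h => h.2
  · intro h
    exact ⟨h ▸ hr, h⟩

theorem sum_F (a q : ℕ) (φ : ℕ → ℕ) :
    ∑ y ∈ F a q, φ (∑ j, y j) = ∑ r ∈ range (q + 1), W a r * φ r := by
  rw [← Finset.sum_fiberwise_of_maps_to (s := F a q) (t := range (q + 1))
    (g := fun y : Fin a → ℕ => ∑ j, y j) (fun y hy => Finset.mem_range.2 (by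
      have := mem_F.1 hy; omega))]
  refine Finset.sum_congr rfl fun r hr => ?_
  rw [Finset.sum_congr rfl (g := fun _ => φ r) (fun y hy => by rw [(Finset.mem_filter.1 hy).2]),
    Finset.sum_const, card_fib (by have := Finset.mem_range.1 hr; omega), smul_eq_mul]

/-- Coordinates. -/
def eqv (T : Type) : (ZMod 3 → T) ≃ T × T × T where
  toFun x := (x 0, x 1, x 2)
  invFun t := (![t.1, t.2.1, t.2.2] : Fin 3 → T)
  left_inv x := by
    funext i
    fin_cases i <;> rfl
  right_inv t := rfl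

theorem L_three (a q : ℕ) : L 3 a q = ∑ r0 ∈ range (q + 1), W a r0 * ∑ r1 ∈ range (q + 1),
    W a r1 * ∑ r2 ∈ range (q + 1), W a r2 *
      if r0 + r1 ≤ q ∧ r1 + r2 ≤ q ∧ r2 + r0 ≤ q then 1 else 0 := by
  unfold L
  rw [Nat.card_congr (Equiv.subtypeEquiv (eqv (Fin a → ℕ))
    (q := fun t => (∑ j, t.1 j) + (∑ j, t.2.1 j) ≤ q ∧ (∑ j, t.2.1 j) + (∑ j, t.2.2 j) ≤ q ∧
      (∑ j, t.2.2 j) + (∑ j, t.1 j) ≤ q) ?_)]
  · rw [Nat.subtype_card ((F a q ×ˢ F a q ×ˢ F a q).filter fun t =>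
      (∑ j, t.1 j) + (∑ j, t.2.1 j) ≤ q ∧ (∑ j, t.2.1 j) + (∑ j, t.2.2 j) ≤ q ∧
      (∑ j, t.2.2 j) + (∑ j, t.1 j) ≤ q)]
    · rw [Finset.card_filter, Finset.sum_product]
      simp_rw [Finset.sum_product]
      rw [← sum_F a q (fun r0 => ∑ r1 ∈ range (q + 1),
        W a r1 * ∑ r2 ∈ range (q + 1), W a r2 *
          if r0 + r1 ≤ q ∧ r1 + r2 ≤ q ∧ r2 + r0 ≤ q then 1 else 0)]
      refine Finset.sum_congr rfl fun y _ => ?_
      rw [← sum_F a q (fun r1 => ∑ r2 ∈ range (q + 1), W a r2 *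
          if (∑ j, y j) + r1 ≤ q ∧ r1 + r2 ≤ q ∧ r2 + (∑ j, y j) ≤ q then 1 else 0)]
      refine Finset.sum_congr rfl fun z _ => ?_
      rw [← sum_F a q (fun r2 =>
          if (∑ j, y j) + (∑ j, z j) ≤ q ∧ (∑ j, z j) + r2 ≤ q ∧ r2 + (∑ j, y j) ≤ q
          then 1 else 0)]
    · rintro ⟨x, y, z⟩
      simp only [Finset.mem_filter, Finset.mem_product, mem_F]
      constructor
      · exact fun h => h.2
      · intro h
        exact ⟨⟨by omega, by omega, by omega⟩, h⟩
  · intro x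
    constructor
    · intro h
      exact ⟨h 0, h 1, h 2⟩
    · rintro ⟨h0, h1, h2⟩ i
      fin_cases i
      · exact h0
      · exact h1
      · exact h2

theorem ind_eq {q r0 r1 r2 : ℕ} (h0 : r0 ≤ q) (h1 : r1 ≤ q) (h2 : r2 ≤ q) :
    (if r0 + r1 ≤ q ∧ r1 + r2 ≤ q ∧ r2 + r0 ≤ q then 1 else 0) =
      (if r0 ≤ q / 2 then 1 else 0) * (if r1 ≤ q / 2 then 1 else 0) *
        (if r2 ≤ q / 2 then 1 else 0) +
      (if q / 2 < r0 then 1 else 0) * (if r1 ≤ q - r0 then 1 else 0) *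
        (if r2 ≤ q - r0 then 1 else 0) +
      (if q / 2 < r1 then 1 else 0) * (if r0 ≤ q - r1 then 1 else 0) *
        (if r2 ≤ q - r1 then 1 else 0) +
      (if q / 2 < r2 then 1 else 0) * (if r0 ≤ q - r2 then 1 else 0) *
        (if r1 ≤ q - r2 then 1 else (0 : ℕ)) := by
  by_cases a0 : r0 ≤ q / 2 <;> by_cases a1 : r1 ≤ q / 2 <;> by_cases a2 : r2 ≤ q / 2 <;>
    simp only [a0, a1, a2, not_lt.2, if_true, if_false, mul_one, mul_zero, zero_mul,
      add_zero, zero_add] <;>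
    split_ifs <;> omega

theorem sum_W_ite (a : ℕ) {n q : ℕ} (hn : n ≤ q) :
    ∑ t ∈ range (q + 1), W a t * (if t ≤ n then 1 else 0) = (a + n).choose n := by
  rw [← sum_W]
  simp only [mul_ite, mul_one, mul_zero]
  rw [← Finset.sum_filter]
  congr 1
  ext t
  simp only [Finset.mem_filter, Finset.mem_range]
  omega

theorem L_closed (a q : ℕ) : L 3 a q = ((a + q / 2).choose (q / 2)) ^ 3 +
    3 * ∑ s ∈ range (q - q / 2), W a (q - s) * ((a + s).choose s) ^ 2 := by
  rw [L_three]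
  have key : ∀ r0 ∈ range (q + 1), ∀ r1 ∈ range (q + 1), ∀ r2 ∈ range (q + 1),
      W a r0 * (W a r1 * (W a r2 *
        if r0 + r1 ≤ q ∧ r1 + r2 ≤ q ∧ r2 + r0 ≤ q then 1 else 0)) =
      (W a r0 * (if r0 ≤ q / 2 then 1 else 0)) * (W a r1 * (if r1 ≤ q / 2 then 1 else 0)) *
        (W a r2 * (if r2 ≤ q / 2 then 1 else 0)) +
      (W a r0 * (if q / 2 < r0 then 1 else 0)) * (W a r1 * (if r1 ≤ q - r0 then 1 else 0)) *
        (W a r2 * (if r2 ≤ q - r0 then 1 else 0)) +
      (W a r1 * (if q / 2 < r1 then 1 else 0)) * (W a r0 * (if r0 ≤ q - r1 then 1 else 0)) *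
        (W a r2 * (if r2 ≤ q - r1 then 1 else 0)) +
      (W a r2 * (if q / 2 < r2 then 1 else 0)) * (W a r0 * (if r0 ≤ q - r2 then 1 else 0)) *
        (W a r1 * (if r1 ≤ q - r2 then 1 else 0)) := by
    intro r0 h0 r1 h1 r2 h2
    rw [Finset.mem_range] at h0 h1 h2
    rw [ind_eq (by omega : r0 ≤ q) (by omega : r1 ≤ q) (by omega : r2 ≤ q)]
    ring
  simp_rw [Finset.mul_sum]
  rw [Finset.sum_congr rfl fun r0 h0 => Finset.sum_congr rfl fun r1 h1 =>
    Finset.sum_congr rfl fun r2 h2 => key r0 h0 r1 h1 r2 h2]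
  simp_rw [Finset.sum_add_distrib]
  have hA : ∑ r0 ∈ range (q + 1), ∑ r1 ∈ range (q + 1), ∑ r2 ∈ range (q + 1),
      (W a r0 * (if r0 ≤ q / 2 then 1 else 0)) * (W a r1 * (if r1 ≤ q / 2 then 1 else 0)) *
        (W a r2 * (if r2 ≤ q / 2 then 1 else 0)) = ((a + q / 2).choose (q / 2)) ^ 3 := by
    simp_rw [← Finset.mul_sum, ← Finset.sum_mul, ← Finset.mul_sum]
    rw [← Finset.sum_mul, sum_W_ite a (Nat.div_le_self q 2)]
    ring
  have hB : ∑ r0 ∈ range (q + 1), ∑ r1 ∈ range (q + 1), ∑ r2 ∈ range (q + 1),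
      (W a r0 * (if q / 2 < r0 then 1 else 0)) * (W a r1 * (if r1 ≤ q - r0 then 1 else 0)) *
        (W a r2 * (if r2 ≤ q - r0 then 1 else 0)) =
      ∑ s ∈ range (q - q / 2), W a (q - s) * ((a + s).choose s) ^ 2 := by
    have h1 : ∀ r0 ∈ range (q + 1), ∑ r1 ∈ range (q + 1), ∑ r2 ∈ range (q + 1),
      (W a r0 * (if q / 2 < r0 then 1 else 0)) * (W a r1 * (if r1 ≤ q - r0 then 1 else 0)) *
        (W a r2 * (if r2 ≤ q - r0 then 1 else 0)) =
        (W a r0 * (if q / 2 < r0 then 1 else 0)) * ((a + (q - r0)).choose (q - r0)) ^ 2 := by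
      intro r0 _
      simp_rw [← Finset.mul_sum, sum_W_ite a (Nat.sub_le q r0)]
      rw [← Finset.sum_mul, ← Finset.mul_sum, sum_W_ite a (Nat.sub_le q r0)]
      ring
    rw [Finset.sum_congr rfl h1, ← Finset.sum_range_reflect]
    rw [← Finset.sum_filter_add_sum_filter_not (range (q + 1)) (fun s => s < q - q / 2)]
    rw [Finset.sum_eq_zero (s := Finset.filter (fun s => ¬ s < q - q / 2) (range (q + 1))),
      add_zero]
    · have hf : Finset.filter (fun s => s < q - q / 2) (range (q + 1)) = range (q - q / 2) := by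
        ext s
        simp only [Finset.mem_filter, Finset.mem_range]
        omega
      rw [hf]
      refine Finset.sum_congr rfl fun s hs => ?_
      rw [Finset.mem_range] at hs
      have e1 : q + 1 - 1 - s = q - s := by omega
      have e2 : q - (q - s) = s := by omega
      rw [e1, e2, if_pos (by omega), mul_one]
    · intro s hs
      rw [Finset.mem_filter, Finset.mem_range] at hs
      rw [if_neg (by omega), mul_zero, zero_mul]
  have hC : ∑ r0 ∈ range (q + 1), ∑ r1 ∈ range (q + 1), ∑ r2 ∈ range (q + 1),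
      (W a r1 * (if q / 2 < r1 then 1 else 0)) * (W a r0 * (if r0 ≤ q - r1 then 1 else 0)) *
        (W a r2 * (if r2 ≤ q - r1 then 1 else 0)) =
      ∑ s ∈ range (q - q / 2), W a (q - s) * ((a + s).choose s) ^ 2 := by
    rw [Finset.sum_comm]
    exact hB
  have hD : ∑ r0 ∈ range (q + 1), ∑ r1 ∈ range (q + 1), ∑ r2 ∈ range (q + 1),
      (W a r2 * (if q / 2 < r2 then 1 else 0)) * (W a r0 * (if r0 ≤ q - r2 then 1 else 0)) *
        (W a r1 * (if r1 ≤ q - r2 then 1 else 0)) =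
      ∑ s ∈ range (q - q / 2), W a (q - s) * ((a + s).choose s) ^ 2 := by
    rw [Finset.sum_congr rfl fun r0 _ => Finset.sum_comm]
    rw [Finset.sum_comm]
    exact hB
  rw [hA, hB, hC, hD, ← Finset.mul_sum]
  ring

/-! ### even and odd parts of power series -/

/-- The even part. -/
noncomputable def ev (f : PowerSeries ℤ) : PowerSeries ℤ :=
  PowerSeries.mk fun k => PowerSeries.coeff (2 * k) f

/-- The odd part. -/
noncomputable def od (f : PowerSeries ℤ) : PowerSeries ℤ :=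
  PowerSeries.mk fun k => PowerSeries.coeff (2 * k + 1) f

theorem ev_step (f : PowerSeries ℤ) :
    ev ((1 - PowerSeries.X ^ 2) * f) = (1 - PowerSeries.X) * ev f := by
  ext k
  rw [ev, PowerSeries.coeff_mk, sub_mul, one_mul, sub_mul, one_mul, map_sub, map_sub,
    PowerSeries.coeff_X_pow_mul']
  cases k with
  | zero => simp [ev]
  | succ k =>
    rw [PowerSeries.coeff_succ_X_mul, ev, PowerSeries.coeff_mk, PowerSeries.coeff_mk,
      if_pos (by omega)]
    congr 2

theorem od_step (f : PowerSeries ℤ) :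
    od ((1 - PowerSeries.X ^ 2) * f) = (1 - PowerSeries.X) * od f := by
  ext k
  rw [od, PowerSeries.coeff_mk, sub_mul, one_mul, sub_mul, one_mul, map_sub, map_sub,
    PowerSeries.coeff_X_pow_mul']
  cases k with
  | zero => simp [od]
  | succ k =>
    rw [PowerSeries.coeff_succ_X_mul, od, PowerSeries.coeff_mk, PowerSeries.coeff_mk,
      if_pos (by omega)]
    congr 2

theorem ev_pow (D : ℕ) (f : PowerSeries ℤ) :
    ev ((1 - PowerSeries.X ^ 2) ^ D * f) = (1 - PowerSeries.X) ^ D * ev f := by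
  induction D with
  | zero => simp
  | succ D ih => rw [pow_succ', mul_assoc, ev_step, ih, pow_succ', mul_assoc]

theorem od_pow (D : ℕ) (f : PowerSeries ℤ) :
    od ((1 - PowerSeries.X ^ 2) ^ D * f) = (1 - PowerSeries.X) ^ D * od f := by
  induction D with
  | zero => simp
  | succ D ih => rw [pow_succ', mul_assoc, od_step, ih, pow_succ', mul_assoc]

/-! ### polynomial functions and indefinite sums -/

theorem exists_choose (k : ℕ) : ∃ P : ℚ[X], ∀ x : ℚ, P.eval x = Ring.choose x k := by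
  refine ⟨C ((k.factorial : ℚ)⁻¹) * (descPochhammer ℤ k).map (Int.castRingHom ℚ), fun x => ?_⟩
  rw [Ring.choose_eq_smul, eval_mul, eval_C, eval_map,
    ← Polynomial.eval₂_smulOneHom_eq_smeval ℤ, smul_eq_mul]
  congr 2
  exact Subsingleton.elim _ _

theorem exists_sum (g : ℚ[X]) : ∃ G : ℚ[X], G.eval 0 = 0 ∧
    ∀ x : ℚ, G.eval (x + 1) = G.eval x + g.eval x := by
  induction g using Polynomial.induction_on' with
  | add p q hp hq =>
    obtain ⟨P, hP0, hP⟩ := hp
    obtain ⟨Q, hQ0, hQ⟩ := hq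
    refine ⟨P + Q, by simp [hP0, hQ0], fun x => ?_⟩
    rw [eval_add, eval_add, eval_add, hP, hQ]
    ring
  | monomial n c =>
    refine ⟨C (c / (n + 1)) * (Polynomial.bernoulli (n + 1) -
      C ((Polynomial.bernoulli (n + 1)).eval 0)), by simp, fun x => ?_⟩
    simp only [eval_mul, eval_sub, eval_C, eval_monomial]
    rw [add_comm x 1, Polynomial.bernoulli_eval_one_add]
    have : (n : ℚ) + 1 ≠ 0 := by positivity
    push_cast
    field_simp
    ring

theorem sum_nat {g G : ℚ[X]} (h0 : G.eval 0 = 0)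
    (h : ∀ x : ℚ, G.eval (x + 1) = G.eval x + g.eval x) (k : ℕ) :
    G.eval (k : ℚ) = ∑ s ∈ range k, g.eval (s : ℚ) := by
  induction k with
  | zero => simpa using h0
  | succ k ih => rw [Finset.sum_range_succ, ← ih, ← h, Nat.cast_succ]

theorem sum_neg {g G : ℚ[X]} (h0 : G.eval 0 = 0)
    (h : ∀ x : ℚ, G.eval (x + 1) = G.eval x + g.eval x) (n : ℕ) :
    G.eval (-(n : ℚ)) = -∑ s ∈ range n, g.eval (-((s : ℚ) + 1)) := by
  induction n with
  | zero => simpa using h0
  | succ n ih =>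
    rw [Finset.sum_range_succ, neg_add, ← ih]
    have := h (-((n : ℚ) + 1))
    rw [show -((n : ℚ) + 1) + 1 = -(n : ℚ) by ring] at this
    rw [this]
    push_cast
    ring

/-- The summand, with `a = b + 1`. -/
noncomputable def S (b : ℕ) (x y : ℚ) : ℚ :=
  Ring.choose (2 * x - y + b) b * Ring.choose (y + (b + 1)) (b + 1) ^ 2

theorem exists_T (b : ℕ) : ∃ T : ℚ[X],
    (∀ k : ℕ, T.eval (k : ℚ) = ∑ s ∈ range k, S b k s) ∧
    ∀ n : ℕ, T.eval (-(n : ℚ)) = -∑ s ∈ range n, S b (-(n : ℚ)) (-((s : ℚ) + 1)) := by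
  choose B hB using exists_choose
  have hg : ∀ j : ℕ, ∃ g : ℚ[X], ∀ y : ℚ,
      g.eval y = Ring.choose (-y + b) j * Ring.choose (y + (b + 1)) (b + 1) ^ 2 := by
    intro j
    refine ⟨(B j).comp (-X + C (b : ℚ)) * ((B (b + 1)).comp (X + C ((b : ℚ) + 1))) ^ 2,
      fun y => ?_⟩
    simp only [eval_mul, eval_comp, eval_pow, eval_add, eval_neg, eval_X, eval_C, hB]
  choose g hg using hg
  choose G hG0 hG using fun j => exists_sum (g j)
  have hS : ∀ x y : ℚ, S b x y =
      ∑ ij ∈ antidiagonal b, Ring.choose (2 * x) ij.1 * (g ij.2).eval y := by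
    intro x y
    rw [S, show 2 * x - y + (b : ℚ) = 2 * x + (-y + b) by ring,
      Ring.add_choose_eq b (Commute.all _ _), Finset.sum_mul]
    refine Finset.sum_congr rfl fun ij _ => ?_
    rw [hg]
    ring
  refine ⟨∑ ij ∈ antidiagonal b, (B ij.1).comp (C 2 * X) * G ij.2, fun k => ?_, fun n => ?_⟩
  · rw [eval_finsetSum]
    simp_rw [hS]
    rw [Finset.sum_comm]
    refine Finset.sum_congr rfl fun ij _ => ?_
    rw [eval_mul, eval_comp, hB, sum_nat (hG0 _) (hG _), Finset.mul_sum]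
    simp
  · rw [eval_finsetSum]
    simp_rw [hS]
    rw [Finset.sum_comm, ← Finset.sum_neg_distrib]
    refine Finset.sum_congr rfl fun ij _ => ?_
    rw [eval_mul, eval_comp, hB, sum_neg (hG0 _) (hG _), ← Finset.mul_sum]
    simp

theorem choose_neg_one (a : ℕ) : Ring.choose (-1 : ℚ) a = (-1) ^ a := by
  rw [Ring.choose_neg]
  have : (1 : ℚ) + a - 1 = (a : ℚ) := by ring
  rw [this, Ring.choose_natCast, Nat.choose_self, Nat.cast_one]
  simp [Int.negOnePow_def, Units.smul_def]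

theorem choose_neg_two (b : ℕ) : Ring.choose (-2 : ℚ) b = (-1) ^ b * (b + 1) := by
  rw [Ring.choose_neg]
  have : (2 : ℚ) + b - 1 = ((b + 1 : ℕ) : ℚ) := by push_cast; ring
  rw [this, Ring.choose_natCast, Nat.choose_succ_self_right]
  simp [Int.negOnePow_def, Units.smul_def]
  ring


/-! ### the numbers `L(2k)` as a polynomial -/

theorem exists_E (b : ℕ) : ∃ E : ℚ[X], (∀ k : ℕ, E.eval (k : ℚ) = (L 3 (b + 1) (2 * k) : ℚ)) ∧
    E.eval (-((b + 2 : ℕ) : ℚ)) ≠ 0 := by
  obtain ⟨B, hB⟩ := exists_choose (b + 1)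
  obtain ⟨T, hT1, hT2⟩ := exists_T b
  refine ⟨(B.comp (X + C ((b : ℚ) + 1))) ^ 3 + 3 * T, fun k => ?_, ?_⟩
  · rw [L_closed, show 2 * k / 2 = k by omega, show 2 * k - k = k by omega]
    simp only [eval_add, eval_pow, eval_comp, eval_X, eval_C, eval_mul, hB]
    rw [hT1, show (3 : ℚ[X]).eval (k : ℚ) = 3 by exact eval_ofNat 3 _]
    push_cast
    congr 1
    · rw [show (k : ℚ) + ((b : ℚ) + 1) = ((b + 1 + k : ℕ) : ℚ) by push_cast; ring,
        Ring.choose_natCast, Nat.choose_symm_add]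
    · congr 1
      refine Finset.sum_congr rfl fun s hs => ?_
      rw [Finset.mem_range] at hs
      rw [S, W_eq]
      rw [show 2 * (k : ℚ) - s + b = ((b + (2 * k - s) : ℕ) : ℚ) by
          push_cast [Nat.cast_sub (by omega : s ≤ 2 * k)]; ring,
        show (s : ℚ) + ((b : ℚ) + 1) = ((b + 1 + s : ℕ) : ℚ) by push_cast; ring,
        Ring.choose_natCast, Ring.choose_natCast, Nat.choose_symm_add,
        show b + 1 + (2 * k - s) - 1 = b + (2 * k - s) by omega, Nat.choose_symm_add]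
  · simp only [eval_add, eval_pow, eval_comp, eval_X, eval_C, eval_mul, hB]
    rw [hT2, show (3 : ℚ[X]).eval (-((b + 2 : ℕ) : ℚ)) = 3 by exact eval_ofNat 3 _,
      Finset.sum_range_succ, Finset.sum_eq_zero]
    · rw [S, zero_add]
      push_cast
      rw [show -((b : ℚ) + 2) + (b + 1) = -1 by ring,
        show 2 * -((b : ℚ) + 2) - -(b + 1 + 1) + b = -2 by ring,
        show -((b : ℚ) + 1 + 1) + (b + 1) = -1 by ring, choose_neg_one, choose_neg_two]
      have h1 : ((-1 : ℚ) ^ (b + 1)) ^ 2 = 1 := by rw [← pow_mul, mul_comm, pow_mul]; simp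
      have h2 : ((-1 : ℚ) ^ (b + 1)) ^ 3 = (-1) ^ (b + 1) := by
        rw [pow_succ, h1, one_mul]
      rw [h1, h2, pow_succ]
      have h3 : ((-1 : ℚ) ^ b) ≠ 0 := pow_ne_zero _ (by norm_num)
      have h4 : (0 : ℚ) < 3 * b + 4 := by positivity
      have h5 : (-1 : ℚ) ^ b * -1 + 3 * -((-1) ^ b * (b + 1) * 1) = -((-1) ^ b * (3 * b + 4)) := by
        ring
      rw [h5]
      exact neg_ne_zero.2 (mul_ne_zero h3 h4.ne')
    · intro s hs
      rw [Finset.mem_range] at hs
      rw [S, show -((s : ℚ) + 1) + ((b : ℚ) + 1) = ((b - s : ℕ) : ℚ) by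
          push_cast [Nat.cast_sub (by omega : s ≤ b)]; ring, Ring.choose_natCast,
        Nat.choose_eq_zero_of_lt (by omega)]
      simp

theorem L_zero (a : ℕ) : L 3 a 0 = 1 := by
  rw [L_closed]
  simp

theorem L_one (a : ℕ) : L 3 a 1 = 3 * a + 1 := by
  rw [L_closed]
  simp [W_eq]
  ring

theorem coeff_zero_num {a : ℕ} {h : ℤ[X]} (hn : IsNumerator 3 a h) : h.coeff 0 = 1 := by
  have h1 : ev (h : PowerSeries ℤ) = _ := congrArg ev hn
  rw [ev_pow] at h1
  have h2 := congrArg (PowerSeries.constantCoeff (R := ℤ)) h1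
  rw [map_mul, map_pow, map_sub] at h2
  simp [ev, L_zero] at h2
  exact h2

theorem coeff_one_num {a : ℕ} {h : ℤ[X]} (hn : IsNumerator 3 a h) : h.coeff 1 = 3 * a + 1 := by
  have h1 : od (h : PowerSeries ℤ) = _ := congrArg od hn
  rw [od_pow] at h1
  have h2 := congrArg (PowerSeries.constantCoeff (R := ℤ)) h1
  rw [map_mul, map_pow, map_sub] at h2
  simp [od, L_one] at h2
  exact h2

theorem L_even {a : ℕ} {h : ℤ[X]} (hn : IsNumerator 3 a h) (k : ℕ) :
    (L 3 a (2 * k) : ℤ) =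
      ∑ ij ∈ antidiagonal k, h.coeff (2 * ij.1) * ((3 * a + ij.2).choose (3 * a) : ℤ) := by
  have h1 : ev (h : PowerSeries ℤ) = _ := congrArg ev hn
  rw [ev_pow] at h1
  have h2 : ev (PowerSeries.mk fun q => (L 3 a q : ℤ)) =
      ev (h : PowerSeries ℤ) * (PowerSeries.invOneSubPow ℤ (3 * a + 1)).val := by
    rw [h1, ← PowerSeries.invOneSubPow_inv_eq_one_sub_pow, mul_comm a 3, mul_right_comm]
    simp
  have h3 := congrArg (PowerSeries.coeff k) h2
  rw [PowerSeries.coeff_mul, PowerSeries.invOneSubPow_val_succ_eq_mk_add_choose] at h3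
  simpa [ev] using h3

theorem not_gamma_of_two_le {b : ℕ} (hb : 1 ≤ b) {h : ℤ[X]} (hn : IsNumerator 3 (b + 1) h) :
    ¬ GammaNonneg h := by
  intro hg
  have hN : (h.natDegree : ℤ) ≤ 3 * (b + 1 : ℕ) + 1 := by
    rw [← coeff_one_num hn]
    exact degree_le_coeff_one hg (coeff_zero_num hn)
  have hN' : h.natDegree ≤ 3 * (b + 1) + 1 := by exact_mod_cast hN
  have hz : ∀ i : ℕ, 3 * (b + 1) + 1 < 2 * i → h.coeff (2 * i) = 0 := by
    intro i hi
    exact Polynomial.coeff_eq_zero_of_natDegree_lt (by omega)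
  obtain ⟨E, hE1, hE2⟩ := exists_E b
  obtain ⟨B, hB⟩ := exists_choose (3 * (b + 1))
  set Q : ℚ[X] := ∑ i ∈ range (3 * (b + 1) + 1),
    C ((h.coeff (2 * i) : ℤ) : ℚ) * B.comp (X + C (-(i : ℚ) + (3 * (b + 1) : ℕ))) with hQ
  have hQe : ∀ x : ℚ, Q.eval x = ∑ i ∈ range (3 * (b + 1) + 1),
      ((h.coeff (2 * i) : ℤ) : ℚ) * Ring.choose (x + (-(i : ℚ) + (3 * (b + 1) : ℕ)))
        (3 * (b + 1)) := by
    intro x
    rw [hQ, eval_finsetSum]
    refine Finset.sum_congr rfl fun i _ => ?_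
    rw [eval_mul, eval_C, eval_comp, hB]
    simp
  have hEQ : E = Q := by
    apply Polynomial.eq_of_infinite_eval_eq
    refine Set.Infinite.mono (s := Set.range (fun k : ℕ => (k : ℚ))) ?_
      (Set.infinite_range_of_injective Nat.cast_injective)
    rintro _ ⟨k, rfl⟩
    show E.eval (k : ℚ) = Q.eval (k : ℚ)
    rw [hE1, hQe]
    have h1 := L_even hn k
    rw [Finset.Nat.sum_antidiagonal_eq_sum_range_succ_mk] at h1
    have h2 : (L 3 (b + 1) (2 * k) : ℚ) = ∑ i ∈ range (k + 1),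
        ((h.coeff (2 * i) : ℤ) : ℚ) * Ring.choose ((k : ℚ) + (-(i : ℚ) + (3 * (b + 1) : ℕ)))
        (3 * (b + 1)) := by
      have h3 : ((L 3 (b + 1) (2 * k) : ℤ) : ℚ) = _ := congrArg (fun z : ℤ => (z : ℚ)) h1
      rw [Int.cast_natCast] at h3
      rw [h3, Int.cast_sum]
      refine Finset.sum_congr rfl fun i hi => ?_
      rw [Finset.mem_range] at hi
      rw [Int.cast_mul, Int.cast_natCast,
        show (k : ℚ) + (-(i : ℚ) + (3 * (b + 1) : ℕ)) = ((3 * (b + 1) + (k - i) : ℕ) : ℚ) by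
          push_cast [Nat.cast_sub (by omega : i ≤ k)]; ring, Ring.choose_natCast]
    rw [h2]
    have hs1 : range (k + 1) ⊆ range (k + 1 + (3 * (b + 1) + 1)) :=
      Finset.range_subset_range.2 (by omega)
    have hs2 : range (3 * (b + 1) + 1) ⊆ range (k + 1 + (3 * (b + 1) + 1)) :=
      Finset.range_subset_range.2 (by omega)
    rw [Finset.sum_subset hs1, Finset.sum_subset hs2]
    · intro i _ hi
      rw [Finset.mem_range, not_lt] at hi
      rw [hz i (by omega)]
      simp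
    · intro i _ hi
      rw [Finset.mem_range, not_lt] at hi
      by_cases hi2 : 3 * (b + 1) + 1 < 2 * i
      · rw [hz i hi2]
        simp
      · rw [show (k : ℚ) + (-(i : ℚ) + (3 * (b + 1) : ℕ)) = ((3 * (b + 1) + k - i : ℕ) : ℚ) by
          push_cast [Nat.cast_sub (by omega : i ≤ 3 * (b + 1) + k)]; ring, Ring.choose_natCast,
          Nat.choose_eq_zero_of_lt (by omega)]
        simp
  apply hE2
  rw [hEQ, hQe]
  apply Finset.sum_eq_zero
  intro i _
  by_cases hi2 : 3 * (b + 1) + 1 < 2 * i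
  · rw [hz i hi2]
    simp
  · rw [show -((b + 2 : ℕ) : ℚ) + (-(i : ℚ) + (3 * (b + 1) : ℕ)) = ((2 * b + 1 - i : ℕ) : ℚ) by
      push_cast [Nat.cast_sub (by omega : i ≤ 2 * b + 1)]; ring, Ring.choose_natCast,
      Nat.choose_eq_zero_of_lt (by omega)]
    simp

/-! ### the case `a = 1` -/

theorem sum_sq (k : ℕ) : 6 * ∑ s ∈ range k, (s + 1) ^ 2 = k * (k + 1) * (2 * k + 1) := by
  induction k with
  | zero => simp
  | succ k ih => rw [Finset.sum_range_succ, mul_add, ih]; ring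

theorem L31 (q : ℕ) : L 3 1 q = (q / 2 + 1) ^ 3 + 3 * ∑ s ∈ range (q - q / 2), (s + 1) ^ 2 := by
  rw [L_closed]
  congr 2
  · rw [add_comm 1, Nat.choose_succ_self_right]
  · refine Finset.sum_congr rfl fun s _ => ?_
    rw [W_eq, show 1 + (q - s) - 1 = q - s by omega, Nat.choose_self, one_mul, add_comm 1 s,
      Nat.choose_succ_self_right]

theorem L31_even (k : ℕ) : (2 * L 3 1 (2 * k) : ℤ) = 2 * (k + 1) ^ 3 + k * (k + 1) * (2 * k + 1) := by
  have h := sum_sq k
  rw [L31, show 2 * k / 2 = k by omega, show 2 * k - k = k by omega]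
  have h' : (6 : ℤ) * ∑ s ∈ range k, ((s : ℤ) + 1) ^ 2 = (k : ℤ) * (k + 1) * (2 * k + 1) := by
    exact_mod_cast h
  push_cast
  linarith

theorem L31_odd (k : ℕ) : (2 * L 3 1 (2 * k + 1) : ℤ) =
    2 * (k + 1) ^ 3 + (k + 1) * (k + 2) * (2 * k + 3) := by
  have h := sum_sq (k + 1)
  rw [L31, show (2 * k + 1) / 2 = k by omega, show 2 * k + 1 - k = k + 1 by omega]
  have h' : (6 : ℤ) * ∑ s ∈ range (k + 1), ((s : ℤ) + 1) ^ 2 =
      ((k : ℤ) + 1) * (k + 1 + 1) * (2 * (k + 1) + 1) := by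
    exact_mod_cast h
  push_cast
  linarith

/-- `1 + 4z + 7z² + 7z³ + 4z⁴ + z⁵`. -/
noncomputable def h31 : ℤ[X] := 1 + C 4 * X + C 7 * X ^ 2 + C 7 * X ^ 3 + C 4 * X ^ 4 + X ^ 5

theorem coeff_h31 (k : ℕ) : h31.coeff k = (if k = 0 then 1 else 0) + (if k = 1 then 4 else 0) +
    (if k = 2 then 7 else 0) + (if k = 3 then 7 else 0) + (if k = 4 then 4 else 0) +
    (if k = 5 then 1 else 0) := by
  unfold h31
  simp only [coeff_add, coeff_one, coeff_C_mul, coeff_X_pow, coeff_X, mul_ite, mul_one, mul_zero]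
  congr 5
  by_cases h : k = 1
  · simp [h]
  · rw [if_neg h, if_neg (Ne.symm h)]

theorem isNumerator_h31 : IsNumerator 3 1 h31 := by
  unfold IsNumerator
  have e : ∀ f : PowerSeries ℤ, (1 - PowerSeries.X ^ 2) ^ (1 * 3 + 1) * f =
      f - (4 : ℕ) • (PowerSeries.X ^ 2 * f) + (6 : ℕ) • (PowerSeries.X ^ 4 * f) -
        (4 : ℕ) • (PowerSeries.X ^ 6 * f) + PowerSeries.X ^ 8 * f := by
    intro f
    simp only [nsmul_eq_mul]
    push_cast
    ring
  ext q
  rw [e, map_add, map_sub, map_add, map_sub, map_nsmul, map_nsmul, map_nsmul,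
    Polynomial.coeff_coe, coeff_h31, PowerSeries.coeff_X_pow_mul', PowerSeries.coeff_X_pow_mul',
    PowerSeries.coeff_X_pow_mul', PowerSeries.coeff_X_pow_mul']
  simp only [PowerSeries.coeff_mk]
  by_cases hq : q < 8
  · interval_cases q <;> simp [L31, Finset.sum_range_succ]
  · rw [if_neg (by omega), if_neg (by omega), if_neg (by omega), if_neg (by omega),
      if_neg (by omega), if_neg (by omega), if_pos (by omega), if_pos (by omega),
      if_pos (by omega), if_pos (by omega)]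
    simp only [nsmul_eq_mul]
    push_cast
    rcases Nat.even_or_odd' q with ⟨k, rfl | rfl⟩
    · obtain ⟨m, rfl⟩ := Nat.exists_eq_add_of_le (show 4 ≤ k by omega)
      have h0 := L31_even (4 + m)
      have h1 := L31_even (3 + m)
      have h2 := L31_even (2 + m)
      have h3 := L31_even (1 + m)
      have h4 := L31_even m
      rw [show 2 * (4 + m) - 2 = 2 * (3 + m) by omega,
        show 2 * (4 + m) - 4 = 2 * (2 + m) by omega,
        show 2 * (4 + m) - 6 = 2 * (1 + m) by omega,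
        show 2 * (4 + m) - 8 = 2 * m by omega]
      push_cast at h0 h1 h2 h3 h4 ⊢
      linarith
    · obtain ⟨m, rfl⟩ := Nat.exists_eq_add_of_le (show 4 ≤ k by omega)
      have h0 := L31_odd (4 + m)
      have h1 := L31_odd (3 + m)
      have h2 := L31_odd (2 + m)
      have h3 := L31_odd (1 + m)
      have h4 := L31_odd m
      rw [show 2 * (4 + m) + 1 - 2 = 2 * (3 + m) + 1 by omega,
        show 2 * (4 + m) + 1 - 4 = 2 * (2 + m) + 1 by omega,
        show 2 * (4 + m) + 1 - 6 = 2 * (1 + m) + 1 by omega,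
        show 2 * (4 + m) + 1 - 8 = 2 * m + 1 by omega]
      push_cast at h0 h1 h2 h3 h4 ⊢
      linarith

theorem not_gamma_one {h : ℤ[X]} (hn : IsNumerator 3 1 h) : ¬ GammaNonneg h := by
  intro hg
  have hh : h = h31 := by
    have : (h : PowerSeries ℤ) = (h31 : PowerSeries ℤ) := by
      rw [hn]
      exact isNumerator_h31.symm
    exact_mod_cast this
  have h5 : 5 ≤ h.natDegree := by
    apply Polynomial.le_natDegree_of_ne_zero
    rw [hh, coeff_h31]
    simp
  have h1 := degree_le_coeff_one hg (coeff_zero_num hn)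
  rw [coeff_one_num hn] at h1
  norm_num at h1
  omega

/-- For `m = 3` blocks the rational Ehrhart numerator `h_{3,a}` is not gamma-nonnegative, for every
block size `a ≥ 1`; for `a = 1` it is the polynomial `1 + 4z + 7z² + 7z³ + 4z⁴ + z⁵`. -/
theorem result :
    (IsNumerator 3 1 (1 + C 4 * X + C 7 * X ^ 2 + C 7 * X ^ 3 + C 4 * X ^ 4 + X ^ 5) ∧
      ¬ GammaNonneg (1 + C 4 * X + C 7 * X ^ 2 + C 7 * X ^ 3 + C 4 * X ^ 4 + X ^ 5)) ∧
    ∀ a : ℕ, 1 ≤ a → ∀ h : ℤ[X], IsNumerator 3 a h → ¬ GammaNonneg h := by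
  refine ⟨⟨isNumerator_h31, not_gamma_one isNumerator_h31⟩, fun a ha h hn => ?_⟩
  obtain ⟨b, rfl⟩ := Nat.exists_eq_add_of_le' ha
  rcases Nat.eq_zero_or_pos b with rfl | hb
  · exact not_gamma_one hn
  · exact not_gamma_of_two_le hb hn

end Pool.Agent.Results.MP_308823_co.GammaFails
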